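import Mathlib

/-!
# Numerical part
-/

set_option autoImplicit false

open Real Set

namespace Pool.Agent.Q204.FT

theorem arctan_lower {x : ℝ} (hx : 0 ≤ x) : x - x ^ 3 / 3 ≤ arctan x := by
  have hd : ∀ y : ℝ, HasDerivAt (fun y => arctan y - (y - y ^ 3 / 3))
      (1 / (1 + y ^ 2) - (1 - y ^ 2)) y := by
    intro y
    have h1 : HasDerivAt (fun y : ℝ => y ^ 3) (3 * y ^ 2) y := by
      simpa using hasDerivAt_pow 3 y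
    have h2 := (Real.hasDerivAt_arctan y).sub ((hasDerivAt_id y).sub (h1.div_const 3))
    refine h2.congr_deriv ?_
    ring
  have hm : MonotoneOn (fun y => arctan y - (y - y ^ 3 / 3)) (Ici 0) := by
    refine monotoneOn_of_hasDerivWithinAt_nonneg (convex_Ici 0)
      (fun y _ => (hd y).continuousAt.continuousWithinAt)
      (fun y _ => (hd y).hasDerivWithinAt) ?_
    intro y _
    have h1 : 0 < 1 + y ^ 2 := by positivity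
    have e : 1 / (1 + y ^ 2) - (1 - y ^ 2) = y ^ 4 / (1 + y ^ 2) := by
      field_simp
      ring
    rw [e]
    positivity
  have h := hm (mem_Ici.2 le_rfl) (mem_Ici.2 hx) hx
  simp only [Real.arctan_zero] at h
  norm_num at h
  linarith

theorem arctan_upper {x : ℝ} (hx : 0 ≤ x) : arctan x ≤ x - x ^ 3 / 3 + x ^ 5 / 5 := by
  have hd : ∀ y : ℝ, HasDerivAt (fun y => (y - y ^ 3 / 3 + y ^ 5 / 5) - arctan y)
      ((1 - y ^ 2 + y ^ 4) - 1 / (1 + y ^ 2)) y := by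
    intro y
    have h1 : HasDerivAt (fun y : ℝ => y ^ 3) (3 * y ^ 2) y := by
      simpa using hasDerivAt_pow 3 y
    have h3 : HasDerivAt (fun y : ℝ => y ^ 5) (5 * y ^ 4) y := by
      simpa using hasDerivAt_pow 5 y
    have h2 := (((hasDerivAt_id y).sub (h1.div_const 3)).add (h3.div_const 5)).sub
      (Real.hasDerivAt_arctan y)
    refine h2.congr_deriv ?_
    ring
  have hm : MonotoneOn (fun y => (y - y ^ 3 / 3 + y ^ 5 / 5) - arctan y) (Ici 0) := by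
    refine monotoneOn_of_hasDerivWithinAt_nonneg (convex_Ici 0)
      (fun y _ => (hd y).continuousAt.continuousWithinAt)
      (fun y _ => (hd y).hasDerivWithinAt) ?_
    intro y _
    have h1 : 0 < 1 + y ^ 2 := by positivity
    have e : (1 - y ^ 2 + y ^ 4) - 1 / (1 + y ^ 2) = y ^ 6 / (1 + y ^ 2) := by
      field_simp
      ring
    rw [e]
    positivity
  have h := hm (mem_Ici.2 le_rfl) (mem_Ici.2 hx) hx
  simp only [Real.arctan_zero] at h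
  norm_num at h
  linarith

/-- upper comparison point -/
theorem claimA {M c N n ρ : ℝ} (hM : 0 < M) (hc : 1 / 5 ≤ c) (hc2 : c ≤ 1 / 3) (hN : 4 ≤ N)
    (hMN : 99 * N ^ 2 ≤ M) (hn : 1 ≤ n) (hnN : n ≤ N) (hρ : ρ * M = π) :
    let x := ρ - c * n ^ 2 * (ρ ^ 3 / M) + c * (ρ ^ 3 / M) / 2
    0 < x ∧ x ≤ ρ ∧ π < M * x + c * n ^ 2 * x ^ 3 - n ^ 4 * x ^ 5 / 5 := by
  intro x
  have hπ : 0 < π := Real.pi_pos
  have hπ4 : π < 3.15 := Real.pi_lt_d2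
  have hρ0 : 0 < ρ := by
    by_contra h
    push Not at h
    have : ρ * M ≤ 0 := mul_nonpos_of_nonpos_of_nonneg h hM.le
    linarith
  have hn2 : n ^ 2 ≤ N ^ 2 := pow_le_pow_left₀ (by linarith) hnN 2
  have hn20 : 1 ≤ n ^ 2 := one_le_pow₀ hn
  -- `n² ρ ≤ 1/25`
  have hnρ : n ^ 2 * ρ ≤ 1 / 25 := by
    have h1 : n ^ 2 * 99 ≤ M := by linarith
    have h2 : (n ^ 2 * ρ) * 99 ≤ π := by
      calc (n ^ 2 * ρ) * 99 = (n ^ 2 * 99) * ρ := by ring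
        _ ≤ M * ρ := mul_le_mul_of_nonneg_right h1 hρ0.le
        _ = π := by rw [mul_comm]; exact hρ
    linarith
  have hM1 : 1000 ≤ M := by nlinarith
  have hρ1 : ρ ≤ 1 / 25 := by nlinarith
  obtain ⟨q, hq⟩ : ∃ q, q = ρ ^ 3 / M := ⟨_, rfl⟩
  have hq0 : 0 < q := by rw [hq]; positivity
  have hMq : M * q = ρ ^ 3 := by rw [hq]; field_simp
  have hx : x = ρ - c * n ^ 2 * q + c * q / 2 := by rw [hq]
  have hcq : 0 < c * q := by positivity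
  have hxρ : x ≤ ρ := by
    rw [hx]
    have : c * q * 1 ≤ c * q * n ^ 2 := mul_le_mul_of_nonneg_left hn20 hcq.le
    nlinarith
  -- `c n² q ≤ ρ/2`
  have hq1 : q ≤ ρ ^ 3 := by
    rw [hq]
    exact div_le_self (by positivity) (by linarith)
  have hd : ρ - x ≤ c * n ^ 2 * q := by
    rw [hx]; linarith
  have hcn : c * n ^ 2 * q ≤ ρ / 2 := by
    have h1 : c * n ^ 2 * q ≤ 1 / 3 * (n ^ 2 * ρ) * ρ ^ 2 := by
      have : n ^ 2 * q ≤ n ^ 2 * ρ ^ 3 := mul_le_mul_of_nonneg_left hq1 (by positivity)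
      calc c * n ^ 2 * q = c * (n ^ 2 * q) := by ring
        _ ≤ 1 / 3 * (n ^ 2 * ρ ^ 3) := mul_le_mul hc2 this (by positivity) (by norm_num)
        _ = _ := by ring
    have h2 : 1 / 3 * (n ^ 2 * ρ) * ρ ^ 2 ≤ 1 / 3 * (1 / 25) * ρ ^ 2 := by
      have : 0 ≤ ρ ^ 2 := by positivity
      nlinarith
    nlinarith
  have hx0 : 0 < x := by linarith
  refine ⟨hx0, hxρ, ?_⟩
  have hMx : M * x = π - c * n ^ 2 * ρ ^ 3 + c * ρ ^ 3 / 2 := by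
    rw [hx, ← hMq, ← hρ]
    ring
  rw [hMx]
  have h3 : ρ ^ 3 - x ^ 3 ≤ 3 * ρ ^ 2 * (c * n ^ 2 * q) := by
    have e : ρ ^ 3 - x ^ 3 = (ρ - x) * (ρ ^ 2 + ρ * x + x ^ 2) := by ring
    rw [e]
    have h4 : ρ ^ 2 + ρ * x + x ^ 2 ≤ 3 * ρ ^ 2 := by nlinarith
    calc (ρ - x) * (ρ ^ 2 + ρ * x + x ^ 2) ≤ (c * n ^ 2 * q) * (3 * ρ ^ 2) :=
          mul_le_mul hd h4 (by positivity) (by positivity)
      _ = _ := by ring
  have h5 : x ^ 5 ≤ ρ ^ 5 := pow_le_pow_left₀ hx0.le hxρ 5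
  -- the error is at most `(1/4) n⁴ ρ⁵ < c ρ³ / 2`
  have h6 : c * n ^ 2 * (ρ ^ 3 - x ^ 3) ≤ 1 / 100 * (n ^ 4 * ρ ^ 5) := by
    have h7 : c * n ^ 2 * (ρ ^ 3 - x ^ 3) ≤ c * n ^ 2 * (3 * ρ ^ 2 * (c * n ^ 2 * q)) :=
      mul_le_mul_of_nonneg_left h3 (by positivity)
    have e : c * n ^ 2 * (3 * ρ ^ 2 * (c * n ^ 2 * q)) = 3 * c ^ 2 * (n ^ 4 * ρ ^ 2 * q) := by ring
    rw [e] at h7
    have hc22 : 3 * c ^ 2 ≤ 1 / 3 := by nlinarith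
    have hq2 : q ≤ 1 / 1000 * ρ ^ 3 := by
      have : 1000 * q ≤ M * q := mul_le_mul_of_nonneg_right hM1 hq0.le
      linarith
    have h8 : n ^ 4 * ρ ^ 2 * q ≤ n ^ 4 * ρ ^ 2 * (1 / 1000 * ρ ^ 3) :=
      mul_le_mul_of_nonneg_left hq2 (by positivity)
    have h9 : 3 * c ^ 2 * (n ^ 4 * ρ ^ 2 * q) ≤ 1 / 3 * (n ^ 4 * ρ ^ 2 * (1 / 1000 * ρ ^ 3)) :=
      mul_le_mul hc22 h8 (by positivity) (by norm_num)
    have e2 : 1 / 3 * (n ^ 4 * ρ ^ 2 * (1 / 1000 * ρ ^ 3)) = 1 / 3000 * (n ^ 4 * ρ ^ 5) := by ring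
    rw [e2] at h9
    have : 0 ≤ n ^ 4 * ρ ^ 5 := by positivity
    linarith
  have h7 : n ^ 4 * x ^ 5 / 5 ≤ 1 / 5 * (n ^ 4 * ρ ^ 5) := by
    have := mul_le_mul_of_nonneg_left h5 (show (0 : ℝ) ≤ n ^ 4 by positivity)
    linarith
  have h8 : n ^ 4 * ρ ^ 5 ≤ 1 / 625 * ρ ^ 3 := by
    have e : n ^ 4 * ρ ^ 5 = (n ^ 2 * ρ) ^ 2 * ρ ^ 3 := by ring
    rw [e]
    have : (n ^ 2 * ρ) ^ 2 ≤ (1 / 25) ^ 2 := pow_le_pow_left₀ (by positivity) hnρ 2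
    have h9 : (0 : ℝ) ≤ ρ ^ 3 := by positivity
    nlinarith
  have h9 : 1 / 5 * ρ ^ 3 ≤ c * ρ ^ 3 := mul_le_mul_of_nonneg_right hc (by positivity)
  have h10 : 0 < ρ ^ 3 := by positivity
  nlinarith

/-- lower comparison point -/
theorem claimB {M c N n ρ : ℝ} (hM : 0 < M) (hc : 1 / 5 ≤ c) (hc2 : c ≤ 1 / 3) (hN : 4 ≤ N)
    (hMN : 99 * N ^ 2 ≤ M) (hn : 1 ≤ n) (hnN : n ≤ N) (hρ : ρ * M = π) :
    let x := ρ - c * n ^ 2 * (ρ ^ 3 / M) - c * (ρ ^ 3 / M) / 2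
    0 < x ∧ x ≤ ρ ∧ M * x + c * n ^ 2 * x ^ 3 + n ^ 4 * x ^ 5 / 5 < π := by
  intro x
  have hπ : 0 < π := Real.pi_pos
  have hπ4 : π < 3.15 := Real.pi_lt_d2
  have hρ0 : 0 < ρ := by
    by_contra h
    push Not at h
    have : ρ * M ≤ 0 := mul_nonpos_of_nonpos_of_nonneg h hM.le
    linarith
  have hn2 : n ^ 2 ≤ N ^ 2 := pow_le_pow_left₀ (by linarith) hnN 2
  have hn20 : 1 ≤ n ^ 2 := one_le_pow₀ hn
  have hnρ : n ^ 2 * ρ ≤ 1 / 25 := by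
    have h1 : n ^ 2 * 99 ≤ M := by linarith
    have h2 : (n ^ 2 * ρ) * 99 ≤ π := by
      calc (n ^ 2 * ρ) * 99 = (n ^ 2 * 99) * ρ := by ring
        _ ≤ M * ρ := mul_le_mul_of_nonneg_right h1 hρ0.le
        _ = π := by rw [mul_comm]; exact hρ
    linarith
  have hM1 : 1000 ≤ M := by nlinarith
  have hρ1 : ρ ≤ 1 / 25 := by nlinarith
  obtain ⟨q, hq⟩ : ∃ q, q = ρ ^ 3 / M := ⟨_, rfl⟩
  have hq0 : 0 < q := by rw [hq]; positivity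
  have hMq : M * q = ρ ^ 3 := by rw [hq]; field_simp
  have hx : x = ρ - c * n ^ 2 * q - c * q / 2 := by rw [hq]
  have hcq : 0 < c * q := by positivity
  have hxρ : x ≤ ρ := by
    rw [hx]
    have : 0 ≤ c * n ^ 2 * q := by positivity
    linarith
  have hq1 : q ≤ ρ ^ 3 := by
    rw [hq]
    exact div_le_self (by positivity) (by linarith)
  have hcn : c * n ^ 2 * q ≤ ρ / 3 := by
    have h1 : c * n ^ 2 * q ≤ 1 / 3 * (n ^ 2 * ρ) * ρ ^ 2 := by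
      have : n ^ 2 * q ≤ n ^ 2 * ρ ^ 3 := mul_le_mul_of_nonneg_left hq1 (by positivity)
      calc c * n ^ 2 * q = c * (n ^ 2 * q) := by ring
        _ ≤ 1 / 3 * (n ^ 2 * ρ ^ 3) := mul_le_mul hc2 this (by positivity) (by norm_num)
        _ = _ := by ring
    have h2 : 1 / 3 * (n ^ 2 * ρ) * ρ ^ 2 ≤ 1 / 3 * (1 / 25) * ρ ^ 2 := by
      have : 0 ≤ ρ ^ 2 := by positivity
      nlinarith
    nlinarith
  have hcq2 : c * q ≤ c * n ^ 2 * q := by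
    have : c * q * 1 ≤ c * q * n ^ 2 := mul_le_mul_of_nonneg_left hn20 hcq.le
    nlinarith
  have hx0 : 0 < x := by linarith
  refine ⟨hx0, hxρ, ?_⟩
  have hMx : M * x = π - c * n ^ 2 * ρ ^ 3 - c * ρ ^ 3 / 2 := by
    rw [hx, ← hMq, ← hρ]
    ring
  rw [hMx]
  have h3 : x ^ 3 ≤ ρ ^ 3 := pow_le_pow_left₀ hx0.le hxρ 3
  have h5 : x ^ 5 ≤ ρ ^ 5 := pow_le_pow_left₀ hx0.le hxρ 5
  have h6 : c * n ^ 2 * x ^ 3 ≤ c * n ^ 2 * ρ ^ 3 := mul_le_mul_of_nonneg_left h3 (by positivity)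
  have h7 : n ^ 4 * x ^ 5 / 5 ≤ 1 / 5 * (n ^ 4 * ρ ^ 5) := by
    have := mul_le_mul_of_nonneg_left h5 (show (0 : ℝ) ≤ n ^ 4 by positivity)
    linarith
  have h8 : n ^ 4 * ρ ^ 5 ≤ 1 / 625 * ρ ^ 3 := by
    have e : n ^ 4 * ρ ^ 5 = (n ^ 2 * ρ) ^ 2 * ρ ^ 3 := by ring
    rw [e]
    have : (n ^ 2 * ρ) ^ 2 ≤ (1 / 25) ^ 2 := pow_le_pow_left₀ (by positivity) hnρ 2
    have h9 : (0 : ℝ) ≤ ρ ^ 3 := by positivity
    nlinarith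
  have h9 : 1 / 5 * ρ ^ 3 ≤ c * ρ ^ 3 := mul_le_mul_of_nonneg_right hc (by positivity)
  have h10 : 0 < ρ ^ 3 := by positivity
  nlinarith

/-- the four-term inequality fails for the comparison points -/
theorem four {M c i ρ : ℝ} (hM : 0 < M) (hc : 1 / 5 ≤ c) (hc2 : c ≤ 1 / 3) (hi : 1 ≤ i)
    (hMN : 99 * (i + 3) ^ 2 ≤ M) (hρ : ρ * M = π) :
    (ρ - c * i ^ 2 * (ρ ^ 3 / M) + c * (ρ ^ 3 / M) / 2) ^ 2 +
      (ρ - c * (i + 3) ^ 2 * (ρ ^ 3 / M) + c * (ρ ^ 3 / M) / 2) ^ 2 <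
    (ρ - c * (i + 1) ^ 2 * (ρ ^ 3 / M) - c * (ρ ^ 3 / M) / 2) ^ 2 +
      (ρ - c * (i + 2) ^ 2 * (ρ ^ 3 / M) - c * (ρ ^ 3 / M) / 2) ^ 2 := by
  have hπ : 0 < π := Real.pi_pos
  have hπ4 : π < 3.15 := Real.pi_lt_d2
  have hρ0 : 0 < ρ := by
    by_contra h
    push Not at h
    have : ρ * M ≤ 0 := mul_nonpos_of_nonpos_of_nonneg h hM.le
    linarith
  have hnρ : (i + 3) ^ 2 * ρ ≤ 1 / 25 := by
    have h2 : ((i + 3) ^ 2 * ρ) * 99 ≤ π := by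
      calc ((i + 3) ^ 2 * ρ) * 99 = (99 * (i + 3) ^ 2) * ρ := by ring
        _ ≤ M * ρ := mul_le_mul_of_nonneg_right hMN hρ0.le
        _ = π := by rw [mul_comm]; exact hρ
    linarith
  have hM1 : 1000 ≤ M := by nlinarith
  obtain ⟨q, hq⟩ : ∃ q, q = ρ ^ 3 / M := ⟨_, rfl⟩
  have hq0 : 0 < q := by rw [hq]; positivity
  rw [← hq]
  have hq1 : q ≤ ρ ^ 3 := by
    rw [hq]
    exact div_le_self (by positivity) (by linarith)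
  obtain ⟨y, hy⟩ : ∃ y, y = c * q := ⟨_, rfl⟩
  have hy0 : 0 < y := by rw [hy]; positivity
  -- `y (i+3)^4 ≤ ρ / 100`
  have hy1 : y * (i + 3) ^ 4 ≤ 1 / 3 * (1 / 625) * ρ := by
    have h1 : y ≤ 1 / 3 * ρ ^ 3 := by
      rw [hy]
      exact mul_le_mul hc2 hq1 hq0.le (by norm_num)
    have h2 : y * (i + 3) ^ 4 ≤ 1 / 3 * ρ ^ 3 * (i + 3) ^ 4 :=
      mul_le_mul_of_nonneg_right h1 (by positivity)
    have e : 1 / 3 * ρ ^ 3 * (i + 3) ^ 4 = 1 / 3 * ρ * ((i + 3) ^ 2 * ρ) ^ 2 := by ring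
    rw [e] at h2
    have h3 : ((i + 3) ^ 2 * ρ) ^ 2 ≤ (1 / 25) ^ 2 := pow_le_pow_left₀ (by positivity) hnρ 2
    have h4 : 1 / 3 * ρ * ((i + 3) ^ 2 * ρ) ^ 2 ≤ 1 / 3 * ρ * (1 / 25) ^ 2 :=
      mul_le_mul_of_nonneg_left h3 (by positivity)
    linarith
  have e1 : (ρ - c * i ^ 2 * q + c * q / 2) = ρ - y * (i ^ 2 - 1 / 2) := by rw [hy]; ring
  have e2 : (ρ - c * (i + 3) ^ 2 * q + c * q / 2) = ρ - y * ((i + 3) ^ 2 - 1 / 2) := by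
    rw [hy]; ring
  have e3 : (ρ - c * (i + 1) ^ 2 * q - c * q / 2) = ρ - y * ((i + 1) ^ 2 + 1 / 2) := by
    rw [hy]; ring
  have e4 : (ρ - c * (i + 2) ^ 2 * q - c * q / 2) = ρ - y * ((i + 2) ^ 2 + 1 / 2) := by
    rw [hy]; ring
  rw [e1, e2, e3, e4]
  have h5 : (i ^ 2 - 1 / 2) ^ 2 + ((i + 3) ^ 2 - 1 / 2) ^ 2 ≤ 2 * (i + 3) ^ 4 := by
    have h6 : 0 ≤ i ^ 2 - 1 / 2 := by nlinarith
    have h7 : i ^ 2 - 1 / 2 ≤ (i + 3) ^ 2 := by nlinarith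
    have h8 : 0 ≤ (i + 3) ^ 2 - 1 / 2 := by nlinarith
    have h9 : (i + 3) ^ 2 - 1 / 2 ≤ (i + 3) ^ 2 := by linarith
    have h10 := pow_le_pow_left₀ h6 h7 2
    have h11 := pow_le_pow_left₀ h8 h9 2
    have e : ((i + 3) ^ 2) ^ 2 = (i + 3) ^ 4 := by ring
    rw [e] at h10 h11
    linarith
  have key : y * ((i ^ 2 - 1 / 2) ^ 2 + ((i + 3) ^ 2 - 1 / 2) ^ 2) < 4 * ρ := by
    have h6 : y * ((i ^ 2 - 1 / 2) ^ 2 + ((i + 3) ^ 2 - 1 / 2) ^ 2) ≤ y * (2 * (i + 3) ^ 4) :=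
      mul_le_mul_of_nonneg_left h5 hy0.le
    linarith
  have key2 : y ^ 2 * ((i ^ 2 - 1 / 2) ^ 2 + ((i + 3) ^ 2 - 1 / 2) ^ 2) < 4 * ρ * y := by
    have := mul_lt_mul_of_pos_left key hy0
    linarith
  have h12 : 0 ≤ y ^ 2 * (((i + 1) ^ 2 + 1 / 2) ^ 2 + ((i + 2) ^ 2 + 1 / 2) ^ 2) := by positivity
  nlinarith

end Pool.Agent.Q204.FT
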