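import Pool.Agent.Q204.FT.Ode
import Pool.Agent.Q204.FT.Num

/-!
# The four-term inequality fails for `V = 2 / sinh²` on long intervals
-/

set_option autoImplicit false

open Real Set

namespace Pool.Agent.Q204.FT

theorem convex_V {a b : ℝ} (ha : 0 < a) : ConvexOn ℝ (Icc a b) V := by
  have hpos : ∀ x ∈ Icc a b, 0 < x := fun x hx => ha.trans_le hx.1
  have hd1 : ∀ x : ℝ, 0 < x → HasDerivAt V (-(4 * cosh x / sinh x ^ 3)) x := by
    intro x hx
    have hs : sinh x ≠ 0 := (Real.sinh_pos_iff.2 hx).ne'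
    have h1 : HasDerivAt (fun x => sinh x ^ 2) (2 * sinh x * cosh x) x := by
      have := (Real.hasDerivAt_sinh x).fun_pow 2
      simpa using this
    have h2 := (h1.inv (pow_ne_zero 2 hs)).const_mul 2
    have e : V = fun x => 2 * ((fun x => sinh x ^ 2)⁻¹ x) := by
      funext y
      simp [V, div_eq_mul_inv]
    rw [e]
    refine h2.congr_deriv ?_
    field_simp
    ring
  have hd2 : ∀ x : ℝ, 0 < x → HasDerivAt (fun x => -(4 * cosh x / sinh x ^ 3))
      (4 * (3 * cosh x ^ 2 - sinh x ^ 2) / sinh x ^ 4) x := by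
    intro x hx
    have hs : sinh x ≠ 0 := (Real.sinh_pos_iff.2 hx).ne'
    have h1 : HasDerivAt (fun x => sinh x ^ 3) (3 * sinh x ^ 2 * cosh x) x := by
      have := (Real.hasDerivAt_sinh x).fun_pow 3
      simpa using this
    have h2 := (((Real.hasDerivAt_cosh x).const_mul 4).fun_div h1 (pow_ne_zero 3 hs)).fun_neg
    refine h2.congr_deriv ?_
    field_simp
    ring
  refine convexOn_of_hasDerivWithinAt2_nonneg (convex_Icc a b)
    (fun x hx => (hd1 x (hpos x hx)).continuousAt.continuousWithinAt)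
    (fun x hx => (hd1 x (hpos x (interior_subset hx))).hasDerivWithinAt)
    (fun x hx => (hd2 x (hpos x (interior_subset hx))).hasDerivWithinAt) ?_
  intro x hx
  have h1 := Real.cosh_sq x
  have h2 : 0 ≤ sinh x ^ 2 := by positivity
  have h3 : 0 ≤ 3 * cosh x ^ 2 - sinh x ^ 2 := by linarith
  positivity

theorem V_nonneg (x : ℝ) : 0 ≤ V x := by
  unfold V; positivity

theorem tanh_half : 0 < tanh (1 / 2) ∧ tanh (1 / 2) ≤ 1 / 2 := by
  rw [Real.tanh_eq_sinh_div_cosh]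
  have hs : 0 < sinh (1 / 2) := Real.sinh_pos_iff.2 (by norm_num)
  have hc : 0 < cosh (1 / 2) := Real.cosh_pos _
  refine ⟨div_pos hs hc, ?_⟩
  rw [div_le_iff₀ hc, Real.sinh_eq, Real.cosh_eq]
  -- `e^{1/2} ≤ 3 e^{-1/2}`
  have h1 : exp (1 / 2) = exp 1 * exp (-(1 / 2)) := by
    rw [← Real.exp_add]; norm_num
  have h2 := Real.exp_one_lt_d9
  have h3 : 0 < exp (-(1 / 2)) := Real.exp_pos _
  have h4 : exp (1 / 2) ≤ 3 * exp (-(1 / 2)) := by
    rw [h1]
    exact mul_le_mul_of_nonneg_right (by linarith) h3.le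
  linarith

theorem tanh_large {b : ℝ} (hb : 9 ≤ b) : 9 / 10 ≤ tanh b ∧ tanh b < 1 := by
  refine ⟨?_, Real.tanh_lt_one b⟩
  rw [Real.tanh_eq_sinh_div_cosh]
  have hc : 0 < cosh b := Real.cosh_pos _
  rw [le_div_iff₀ hc, Real.sinh_eq, Real.cosh_eq]
  -- `e^{-b} ≤ e^b / 19`
  have h1 : exp b = exp (2 * b) * exp (-b) := by
    rw [← Real.exp_add]; congr 1; ring
  have h2 := Real.add_one_le_exp (2 * b)
  have h3 : 0 < exp (-b) := Real.exp_pos _
  have h4 : 19 * exp (-b) ≤ exp b := by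
    rw [h1]
    exact mul_le_mul_of_nonneg_right (by linarith) h3.le
  linarith

section
variable {a b : ℝ}

theorem hasDerivAt_Phi (k : ℝ) : HasDerivAt (Phi a b)
    ((b - a) + tanh a / (1 + (k * tanh a) ^ 2) - tanh b / (1 + (k * tanh b) ^ 2)) k := by
  have h1 : HasDerivAt (fun k : ℝ => k * tanh a) (tanh a) k := by
    simpa using (hasDerivAt_id k).mul_const (tanh a)
  have h2 : HasDerivAt (fun k : ℝ => k * tanh b) (tanh b) k := by
    simpa using (hasDerivAt_id k).mul_const (tanh b)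
  have h3 : HasDerivAt (fun k : ℝ => k * (b - a)) (b - a) k := by
    simpa using (hasDerivAt_id k).mul_const (b - a)
  have h := (h3.fun_add h1.arctan).fun_sub h2.arctan
  refine h.congr_deriv ?_
  ring

theorem strictMono_Phi (ha : 0 < a) (hab : a + 1 ≤ b) : StrictMono (Phi a b) := by
  refine strictMono_of_deriv_pos fun k => ?_
  rw [(hasDerivAt_Phi k).deriv]
  have h1 : 0 < tanh a := by
    rw [Real.tanh_eq_sinh_div_cosh]
    exact div_pos (Real.sinh_pos_iff.2 ha) (Real.cosh_pos _)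
  have hb0 : 0 < b := by linarith
  have h2 : 0 < tanh b := by
    rw [Real.tanh_eq_sinh_div_cosh]
    exact div_pos (Real.sinh_pos_iff.2 hb0) (Real.cosh_pos _)
  have h3 : tanh b < 1 := Real.tanh_lt_one b
  have h4 : 0 < tanh a / (1 + (k * tanh a) ^ 2) := by positivity
  have h5 : tanh b / (1 + (k * tanh b) ^ 2) ≤ tanh b := by
    refine div_le_self h2.le ?_
    have : 0 ≤ (k * tanh b) ^ 2 := by positivity
    linarith
  linarith

theorem Phi_zero : Phi a b 0 = 0 := by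
  unfold Phi; simp

theorem exists_Phi (hab : a < b) (y : ℝ) (hy : 0 ≤ y) : ∃ k, 0 ≤ k ∧ Phi a b k = y := by
  have hcont : Continuous (Phi a b) :=
    continuous_iff_continuousAt.2 fun k => (hasDerivAt_Phi k).continuousAt
  obtain ⟨K, hK⟩ : ∃ K, K = (y + π) / (b - a) := ⟨_, rfl⟩
  have hba : 0 < b - a := by linarith
  have hK0 : 0 ≤ K := by rw [hK]; have := Real.pi_pos; positivity
  have hPK : y ≤ Phi a b K := by
    unfold Phi
    have e : K * (b - a) = y + π := by rw [hK]; field_simp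
    rw [e]
    have h1 := Real.neg_pi_div_two_lt_arctan (K * tanh a)
    have h2 := Real.arctan_lt_pi_div_two (K * tanh b)
    linarith
  have := intermediate_value_Icc hK0 hcont.continuousOn
  obtain ⟨k, hk, hk2⟩ := this ⟨by rw [Phi_zero]; exact hy, hPK⟩
  exact ⟨k, hk.1, hk2⟩

theorem Phi_bounds (ha : 0 < a) (hab : a < b) {k : ℝ} (hk : 0 ≤ k) :
    |Phi a b k - (k * (b - a + tanh a - tanh b) + (tanh b ^ 3 - tanh a ^ 3) / 3 * k ^ 3)| ≤
      k ^ 5 / 5 := by
  have h1 : 0 < tanh a := by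
    rw [Real.tanh_eq_sinh_div_cosh]
    exact div_pos (Real.sinh_pos_iff.2 ha) (Real.cosh_pos _)
  have hb0 : 0 < b := by linarith
  have h2 : 0 < tanh b := by
    rw [Real.tanh_eq_sinh_div_cosh]
    exact div_pos (Real.sinh_pos_iff.2 hb0) (Real.cosh_pos _)
  have h3 : tanh b < 1 := Real.tanh_lt_one b
  have h4 : tanh a < 1 := Real.tanh_lt_one a
  have a1 := arctan_lower (mul_nonneg hk h1.le)
  have a2 := arctan_upper (mul_nonneg hk h1.le)
  have b1 := arctan_lower (mul_nonneg hk h2.le)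
  have b2 := arctan_upper (mul_nonneg hk h2.le)
  have c1 : (k * tanh a) ^ 5 ≤ k ^ 5 := by
    refine pow_le_pow_left₀ (mul_nonneg hk h1.le) ?_ 5
    nlinarith
  have c2 : (k * tanh b) ^ 5 ≤ k ^ 5 := by
    refine pow_le_pow_left₀ (mul_nonneg hk h2.le) ?_ 5
    nlinarith
  unfold Phi
  rw [abs_le]
  constructor
  · linarith
  · linarith

end

/-- the interval -/
noncomputable def bb (i : ℕ) : ℝ := 1 / 2 + 100 * ((i : ℝ) + 3) ^ 2

theorem main (i : ℕ) (hi : 1 ≤ i) : ∃ (a b : ℝ) (lam : ℕ → ℝ), a < b ∧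
    ContinuousOn V (Icc a b) ∧ ConvexOn ℝ (Icc a b) V ∧ (∀ x ∈ Icc a b, 0 ≤ V x) ∧
    StrictMono lam ∧ (∀ y, (∃ n, lam n = y) ↔ IsEigenvalue a b V y) ∧
    lam (i - 1) / (i : ℝ) ^ 2 + lam (i + 2) / ((i : ℝ) + 3) ^ 2 <
      lam i / ((i : ℝ) + 1) ^ 2 + lam (i + 1) / ((i : ℝ) + 2) ^ 2 := by
  have hi1 : (1 : ℝ) ≤ i := by exact_mod_cast hi
  obtain ⟨a, ha'⟩ : ∃ a : ℝ, a = 1 / 2 := ⟨_, rfl⟩
  have ha : 0 < a := by rw [ha']; norm_num
  obtain ⟨b, hb'⟩ : ∃ b : ℝ, b = bb i := ⟨_, rfl⟩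
  have hba : b - a = 100 * ((i : ℝ) + 3) ^ 2 := by rw [hb', ha']; unfold bb; ring
  have hN : (16 : ℝ) ≤ ((i : ℝ) + 3) ^ 2 := by nlinarith
  have hab1 : a + 1 ≤ b := by nlinarith
  have hab : a < b := by linarith
  have hT0 : 0 < tanh a ∧ tanh a ≤ 1 / 2 := by rw [ha']; exact tanh_half
  have hT1 := tanh_large (b := b) (by linarith)
  choose! kk hk0 hkk using fun y hy => exists_Phi (a := a) (b := b) hab y hy
  have hmono := strictMono_Phi (b := b) ha hab1
  have hπ := Real.pi_pos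
  -- the roots
  obtain ⟨r, hr⟩ : ∃ r : ℕ → ℝ, r = fun n : ℕ => kk (n * π) := ⟨_, rfl⟩
  have hrPhi : ∀ n, Phi a b (r n) = n * π := by
    intro n
    rw [hr]
    exact hkk _ (by positivity)
  have hr0 : ∀ n, 0 ≤ r n := by
    intro n
    rw [hr]
    exact hk0 _ (by positivity)
  have hrm : StrictMono r := by
    intro m n hmn
    by_contra hcon
    push Not at hcon
    have h1 := hmono.monotone hcon
    rw [hrPhi, hrPhi] at h1
    have h2 : (m : ℝ) < n := by exact_mod_cast hmn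
    nlinarith
  have hrpos : ∀ n, 1 ≤ n → 0 < r n := by
    intro n hn
    exact lt_of_le_of_lt (hr0 0) (hrm (by omega))
  refine ⟨a, b, fun n => r (n + 1) ^ 2, hab, ?_, convex_V ha, fun x _ => V_nonneg x, ?_, ?_, ?_⟩
  · intro x hx
    have hs : sinh x ≠ 0 := (Real.sinh_pos_iff.2 (ha.trans_le hx.1)).ne'
    unfold V
    exact (ContinuousAt.div continuousAt_const ((Real.continuous_sinh.pow 2).continuousAt)
      (pow_ne_zero 2 hs)).continuousWithinAt
  · intro m n hmn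
    exact pow_lt_pow_left₀ (hrm (by omega)) (hr0 _) (by norm_num)
  · intro y
    constructor
    · rintro ⟨n, rfl⟩
      rw [eigen_iff ha hab (hrpos _ (by omega))]
      refine ⟨((n + 1 : ℕ) : ℤ), ?_⟩
      rw [hrPhi]
      push_cast
      ring
    · intro h
      have hy := pos_of_eigen hab (fun x _ => V_nonneg x) h
      have hs : √y ^ 2 = y := Real.sq_sqrt hy.le
      have hs0 : 0 < √y := Real.sqrt_pos.2 hy
      rw [← hs, eigen_iff ha hab hs0] at h
      obtain ⟨n, hn⟩ := h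
      have h1 : 0 < (n : ℝ) * π := by
        rw [hn]
        have := hmono hs0
        rwa [Phi_zero] at this
      have h2 : 0 < (n : ℝ) := by
        by_contra hcon
        push Not at hcon
        nlinarith
      have h3 : 0 < n := by exact_mod_cast h2
      obtain ⟨m, rfl⟩ : ∃ m : ℕ, n = m := ⟨n.toNat, by omega⟩
      have h4 : 1 ≤ m := by omega
      refine ⟨m - 1, ?_⟩
      have e : m - 1 + 1 = m := by omega
      simp only [e]
      have h5 : r m = √y := by
        apply hmono.injective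
        rw [hrPhi, ← hn]
        push_cast
        rfl
      rw [h5, hs]
  · -- the inequality
    obtain ⟨M, hM'⟩ : ∃ M, M = b - a + tanh a - tanh b := ⟨_, rfl⟩
    obtain ⟨c, hc'⟩ : ∃ c, c = (tanh b ^ 3 - tanh a ^ 3) / 3 := ⟨_, rfl⟩
    have hM99 : 99 * ((i : ℝ) + 3) ^ 2 ≤ M := by
      rw [hM', hba]
      linarith [hT0.1, hT1.2]
    have hM0 : 0 < M := by linarith
    have hc1 : 1 / 5 ≤ c := by
      rw [hc']
      have h1 : (9 / 10 : ℝ) ^ 3 ≤ tanh b ^ 3 := pow_le_pow_left₀ (by norm_num) hT1.1 3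
      have h2 : tanh a ^ 3 ≤ (1 / 2) ^ 3 := pow_le_pow_left₀ hT0.1.le hT0.2 3
      norm_num at h1 h2
      linarith
    have hc2 : c ≤ 1 / 3 := by
      rw [hc']
      have h1 : tanh b ^ 3 ≤ 1 := pow_le_one₀ (by linarith [hT1.1]) hT1.2.le
      have h2 : 0 ≤ tanh a ^ 3 := pow_nonneg hT0.1.le 3
      linarith
    obtain ⟨ρ, hρ'⟩ : ∃ ρ, ρ = π / M := ⟨_, rfl⟩
    have hρ : ρ * M = π := by rw [hρ']; field_simp
    -- location of the roots
    have loc : ∀ n : ℕ, 1 ≤ n → (n : ℝ) ≤ (i : ℝ) + 3 →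
        (ρ - c * (n : ℝ) ^ 2 * (ρ ^ 3 / M) - c * (ρ ^ 3 / M) / 2) ^ 2 < r n ^ 2 / (n : ℝ) ^ 2 ∧
        r n ^ 2 / (n : ℝ) ^ 2 < (ρ - c * (n : ℝ) ^ 2 * (ρ ^ 3 / M) + c * (ρ ^ 3 / M) / 2) ^ 2 := by
      intro n hn hnN
      have hn1 : (1 : ℝ) ≤ n := by exact_mod_cast hn
      have hn0 : (0 : ℝ) < n := by linarith
      obtain ⟨hA1, hA2, hA3⟩ := claimA hM0 hc1 hc2 (N := (i : ℝ) + 3) (by linarith) hM99 hn1 hnN hρ
      obtain ⟨hB1, hB2, hB3⟩ := claimB hM0 hc1 hc2 (N := (i : ℝ) + 3) (by linarith) hM99 hn1 hnN hρ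
      set x := ρ - c * (n : ℝ) ^ 2 * (ρ ^ 3 / M) + c * (ρ ^ 3 / M) / 2 with hx
      set z := ρ - c * (n : ℝ) ^ 2 * (ρ ^ 3 / M) - c * (ρ ^ 3 / M) / 2 with hz
      have e1 : r n ^ 2 / (n : ℝ) ^ 2 = (r n / n) ^ 2 := by rw [div_pow]
      rw [e1]
      constructor
      · refine pow_lt_pow_left₀ ?_ hB1.le (by norm_num)
        rw [lt_div_iff₀ hn0, ← hmono.lt_iff_lt, hrPhi]
        have h1 := Phi_bounds (b := b) ha hab (k := z * n) (by positivity)
        rw [← hM', ← hc', abs_le] at h1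
        have h2 : z * n * M + c * (z * n) ^ 3 + (z * n) ^ 5 / 5 = n * (M * z + c * (n : ℝ) ^ 2 * z ^ 3 +
            (n : ℝ) ^ 4 * z ^ 5 / 5) := by ring
        have h3 := mul_lt_mul_of_pos_left hB3 hn0
        linarith [h1.2]
      · refine pow_lt_pow_left₀ ?_ (div_nonneg (hr0 n) hn0.le) (by norm_num)
        rw [div_lt_iff₀ hn0, ← hmono.lt_iff_lt, hrPhi]
        have h1 := Phi_bounds (b := b) ha hab (k := x * n) (by positivity)
        rw [← hM', ← hc', abs_le] at h1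
        have h2 : x * n * M + c * (x * n) ^ 3 - (x * n) ^ 5 / 5 = n * (M * x + c * (n : ℝ) ^ 2 * x ^ 3 -
            (n : ℝ) ^ 4 * x ^ 5 / 5) := by ring
        have h3 := mul_lt_mul_of_pos_left hA3 hn0
        linarith [h1.1]
    have l0 := (loc i hi (by linarith)).2
    have l1 := (loc (i + 1) (by omega) (by push_cast; linarith)).1
    have l2 := (loc (i + 2) (by omega) (by push_cast; linarith)).1
    have l3 := (loc (i + 3) (by omega) (by push_cast; linarith)).2
    push_cast at l1 l2 l3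
    have hf := four hM0 hc1 hc2 hi1 hM99 hρ
    have e0 : i - 1 + 1 = i := by omega
    simp only [e0]
    have e3 : i + 2 + 1 = i + 3 := by omega
    have e2 : i + 1 + 1 = i + 2 := by omega
    rw [e3, e2]
    linarith

end Pool.Agent.Q204.FT
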