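import Mathlib

/-!
# Dirichlet eigenvalues of `-u'' + 2 u / sinh²`

On an interval `[a, b]` with `0 < a` the solutions of `-u'' + 2 u / sinh² = k² u` are
`coth x · sin (k x + c) - k cos (k x + c)`, so the Dirichlet eigenvalues are known exactly.
-/

set_option autoImplicit false

open Real Set

namespace Pool.Agent.Q204.FT

/-- `lam` is an eigenvalue of `-u'' + V u` on `[a, b]` with Dirichlet boundary conditions: there is
a twice differentiable `u` on `[a, b]` (with derivative `u'`), not identically zero, with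
`u'' = (V - lam) u` and `u a = u b = 0`. -/
def IsEigenvalue (a b : ℝ) (V : ℝ → ℝ) (lam : ℝ) : Prop :=
  ∃ u u' : ℝ → ℝ, (∀ x ∈ Icc a b, HasDerivWithinAt u (u' x) (Icc a b) x) ∧
    (∀ x ∈ Icc a b, HasDerivWithinAt u' ((V x - lam) * u x) (Icc a b) x) ∧
    u a = 0 ∧ u b = 0 ∧ ∃ x ∈ Icc a b, u x ≠ 0

/-- a function with zero derivative on `[a, b]` is constant -/
theorem const_of_zero {a b : ℝ} {f : ℝ → ℝ} (hab : a < b)
    (h : ∀ x ∈ Icc a b, HasDerivWithinAt f 0 (Icc a b) x) : ∀ x ∈ Icc a b, f x = f a := by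
  refine constant_of_derivWithin_zero (fun x hx => (h x hx).differentiableWithinAt) ?_
  intro x hx
  exact (h x ⟨hx.1, hx.2.le⟩).derivWithin (uniqueDiffOn_Icc hab x ⟨hx.1, hx.2.le⟩)

/-- no eigenvalue `≤ 0` for a nonnegative potential -/
theorem pos_of_eigen {a b : ℝ} (hab : a < b) {V : ℝ → ℝ} (hV : ∀ x ∈ Icc a b, 0 ≤ V x) {lam : ℝ}
    (h : IsEigenvalue a b V lam) : 0 < lam := by
  by_contra hl
  push Not at hl
  obtain ⟨u, u', h1, h2, ha, hb, x0, hx0, hne⟩ := h
  have hd : ∀ x ∈ Icc a b, HasDerivWithinAt (fun x => u x * u' x)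
      (u' x * u' x + u x * ((V x - lam) * u x)) (Icc a b) x := fun x hx => (h1 x hx).mul (h2 x hx)
  have hmono : MonotoneOn (fun x => u x * u' x) (Icc a b) := by
    refine monotoneOn_of_hasDerivWithinAt_nonneg (convex_Icc a b)
      (f' := fun x => u' x * u' x + u x * ((V x - lam) * u x))
      (fun x hx => (hd x hx).continuousWithinAt) ?_ ?_
    · intro x hx
      exact (hd x (interior_subset hx)).mono interior_subset
    · intro x hx
      have h3 := hV x (interior_subset hx)
      have h4 : u x * ((V x - lam) * u x) = (V x - lam) * (u x * u x) := by ring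
      have h5 : 0 ≤ (V x - lam) * (u x * u x) := mul_nonneg (by linarith) (mul_self_nonneg _)
      show 0 ≤ u' x * u' x + u x * ((V x - lam) * u x)
      rw [h4]
      have := mul_self_nonneg (u' x)
      linarith
  have hz : ∀ x ∈ Icc a b, u x * u' x = 0 := by
    intro x hx
    have e1 := hmono (left_mem_Icc.2 hab.le) hx hx.1
    have e2 := hmono hx (right_mem_Icc.2 hab.le) hx.2
    simp only [ha, hb, zero_mul] at e1 e2
    linarith
  have hc := const_of_zero hab (f := fun x => u x * u x) (fun x hx => by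
    have h3 := (h1 x hx).mul (h1 x hx)
    have e : u' x * u x + u x * u' x = 0 := by
      have := hz x hx
      linarith [mul_comm (u' x) (u x)]
    rw [e] at h3
    exact h3)
  have h4 := hc x0 hx0
  simp only [ha, mul_zero] at h4
  exact hne (mul_self_eq_zero.1 h4)

/-- the potential -/
noncomputable def V (x : ℝ) : ℝ := 2 / sinh x ^ 2

/-- the solutions -/
noncomputable def w (k c x : ℝ) : ℝ := cosh x / sinh x * sin (k * x + c) - k * cos (k * x + c)

/-- their derivatives -/
noncomputable def w' (k c x : ℝ) : ℝ :=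
  -(1 / sinh x ^ 2) * sin (k * x + c) + k * (cosh x / sinh x) * cos (k * x + c) +
    k ^ 2 * sin (k * x + c)

theorem hasDerivAt_coth {x : ℝ} (hx : 0 < x) :
    HasDerivAt (fun x => cosh x / sinh x) (-(1 / sinh x ^ 2)) x := by
  have hs : sinh x ≠ 0 := (Real.sinh_pos_iff.2 hx).ne'
  have h := (Real.hasDerivAt_cosh x).div (Real.hasDerivAt_sinh x) hs
  have e : (sinh x * sinh x - cosh x * cosh x) / sinh x ^ 2 = -(1 / sinh x ^ 2) := by
    have := Real.cosh_sq x
    have e2 : sinh x * sinh x - cosh x * cosh x = -1 := by nlinarith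
    rw [e2]
    ring
  rw [e] at h
  exact h

theorem hasDerivAt_w {k c x : ℝ} (hx : 0 < x) : HasDerivAt (w k c) (w' k c x) x := by
  have hlin : HasDerivAt (fun x => k * x + c) k x := by
    simpa using ((hasDerivAt_id x).const_mul k).add_const c
  have hsin := hlin.sin
  have hcos := hlin.cos
  have h := ((hasDerivAt_coth hx).mul hsin).sub (hcos.const_mul k)
  refine h.congr_deriv ?_
  unfold w'
  ring

theorem hasDerivAt_w' {k c x : ℝ} (hx : 0 < x) :
    HasDerivAt (w' k c) ((V x - k ^ 2) * w k c x) x := by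
  have hs : sinh x ≠ 0 := (Real.sinh_pos_iff.2 hx).ne'
  have hlin : HasDerivAt (fun x => k * x + c) k x := by
    simpa using ((hasDerivAt_id x).const_mul k).add_const c
  have hsin := hlin.sin
  have hcos := hlin.cos
  have hcsch : HasDerivAt (fun x => -(1 / sinh x ^ 2)) (2 * cosh x / sinh x ^ 3) x := by
    have h1 : HasDerivAt (fun x => sinh x ^ 2) (2 * sinh x * cosh x) x := by
      have := (Real.hasDerivAt_sinh x).fun_pow 2
      simpa using this
    have h2 := (h1.inv (pow_ne_zero 2 hs)).neg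
    have e : (fun x => -(1 / sinh x ^ 2)) = (-(fun x => sinh x ^ 2)⁻¹) := by
      funext y
      simp [one_div]
    rw [e]
    refine h2.congr_deriv ?_
    field_simp
  have h := ((hcsch.mul hsin).add (((hasDerivAt_coth hx).const_mul k).mul hcos)).add
    (hsin.const_mul (k ^ 2))
  have e : (w' k c) = fun x => -(1 / sinh x ^ 2) * sin (k * x + c) +
      k * (cosh x / sinh x) * cos (k * x + c) + k ^ 2 * sin (k * x + c) := by
    funext y; rfl
  rw [e]
  refine h.congr_deriv ?_
  unfold w V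
  have hc2 := Real.cosh_sq x
  field_simp
  ring_nf

theorem wronskian_w (k x : ℝ) (hx : 0 < x) :
    w k 0 x * w' k (π / 2) x - w' k 0 x * w k (π / 2) x = -k * (1 + k ^ 2) := by
  have hs : sinh x ≠ 0 := (Real.sinh_pos_iff.2 hx).ne'
  unfold w w'
  rw [Real.sin_add_pi_div_two, Real.cos_add_pi_div_two, add_zero]
  have h1 := Real.sin_sq_add_cos_sq (k * x)
  have h2 := Real.cosh_sq x
  have e1 : (cosh x / sinh x) ^ 2 = 1 + 1 / sinh x ^ 2 := by
    rw [div_pow, h2]
    field_simp
  obtain ⟨C, hC⟩ : ∃ C, C = cosh x / sinh x := ⟨_, rfl⟩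
  obtain ⟨S, hS⟩ : ∃ S, S = 1 / sinh x ^ 2 := ⟨_, rfl⟩
  obtain ⟨s, hs'⟩ : ∃ s, s = sin (k * x) := ⟨_, rfl⟩
  obtain ⟨c, hc'⟩ : ∃ c, c = cos (k * x) := ⟨_, rfl⟩
  rw [← hC, ← hS] at e1 ⊢
  rw [← hs', ← hc'] at h1 ⊢
  linear_combination (-k ^ 3 - k * C ^ 2 + k * S) * h1 - k * e1

/-- the Wronskian with an exact solution is constant -/
theorem wr_const {a b k c : ℝ} (ha : 0 < a) (hab : a < b) {u u' : ℝ → ℝ}
    (h1 : ∀ x ∈ Icc a b, HasDerivWithinAt u (u' x) (Icc a b) x)
    (h2 : ∀ x ∈ Icc a b, HasDerivWithinAt u' ((V x - k ^ 2) * u x) (Icc a b) x) :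
    ∀ x ∈ Icc a b, u x * w' k c x - u' x * w k c x = u a * w' k c a - u' a * w k c a := by
  refine const_of_zero hab (f := fun x => u x * w' k c x - u' x * w k c x) ?_
  intro x hx
  have hx0 : 0 < x := ha.trans_le hx.1
  have h3 := ((h1 x hx).mul (hasDerivAt_w' (k := k) (c := c) hx0).hasDerivWithinAt).sub
    ((h2 x hx).mul (hasDerivAt_w (k := k) (c := c) hx0).hasDerivWithinAt)
  refine h3.congr_deriv ?_
  ring

/-- the phase of the solution that vanishes at `a` -/
noncomputable def ph (a k : ℝ) : ℝ := arctan (k * tanh a) - k * a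

theorem w_zero_iff {k c x : ℝ} (hx : 0 < x) :
    w k c x = 0 ↔ sin (k * x + c - arctan (k * tanh x)) = 0 := by
  have hs : 0 < sinh x := Real.sinh_pos_iff.2 hx
  have hc : 0 < cosh x := Real.cosh_pos x
  have hr : 0 < √(1 + (k * tanh x) ^ 2) := Real.sqrt_pos.2 (by positivity)
  rw [Real.sin_sub, Real.sin_arctan, Real.cos_arctan]
  unfold w
  rw [Real.tanh_eq_sinh_div_cosh] at hr ⊢
  have e : cosh x / sinh x * sin (k * x + c) - k * cos (k * x + c) =
      (cosh x / sinh x * √(1 + (k * (sinh x / cosh x)) ^ 2)) *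
      (sin (k * x + c) * (1 / √(1 + (k * (sinh x / cosh x)) ^ 2)) -
        cos (k * x + c) * (k * (sinh x / cosh x) / √(1 + (k * (sinh x / cosh x)) ^ 2))) := by
    field_simp
  rw [e]
  constructor
  · intro h
    rcases mul_eq_zero.1 h with h | h
    · exact absurd h (by positivity)
    · exact h
  · intro h
    rw [h, mul_zero]

theorem w_a (k a : ℝ) (ha : 0 < a) : w k (ph a k) a = 0 := by
  rw [w_zero_iff ha]
  unfold ph
  have : k * a + (arctan (k * tanh a) - k * a) - arctan (k * tanh a) = 0 := by ring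
  rw [this, Real.sin_zero]

/-- the quantization function -/
noncomputable def Phi (a b k : ℝ) : ℝ :=
  k * (b - a) + arctan (k * tanh a) - arctan (k * tanh b)

theorem w_b_iff (k a b : ℝ) (hb : 0 < b) :
    w k (ph a k) b = 0 ↔ ∃ n : ℤ, (n : ℝ) * π = Phi a b k := by
  rw [w_zero_iff hb, Real.sin_eq_zero_iff]
  have : k * b + ph a k - arctan (k * tanh b) = Phi a b k := by
    unfold ph Phi; ring
  rw [this]

theorem w'_a_ne (k a : ℝ) (hk : 0 < k) (ha : 0 < a) : w' k (ph a k) a ≠ 0 := by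
  intro h
  have h0 := w_a k a ha
  have hs : 0 < sinh a := Real.sinh_pos_iff.2 ha
  -- both vanish: the Wronskian with the two basic solutions vanishes
  unfold w at h0
  unfold w' at h
  obtain ⟨s, hs'⟩ : ∃ s, s = sin (k * a + ph a k) := ⟨_, rfl⟩
  obtain ⟨c, hc'⟩ : ∃ c, c = cos (k * a + ph a k) := ⟨_, rfl⟩
  have h1 := Real.sin_sq_add_cos_sq (k * a + ph a k)
  rw [← hs', ← hc'] at h1
  rw [← hs', ← hc'] at h0 h
  have h2 := Real.cosh_sq a
  have e1 : (cosh a / sinh a) ^ 2 = 1 + 1 / sinh a ^ 2 := by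
    rw [div_pow, h2]
    field_simp
  obtain ⟨C, hC⟩ : ∃ C, C = cosh a / sinh a := ⟨_, rfl⟩
  obtain ⟨S, hS⟩ : ∃ S, S = 1 / sinh a ^ 2 := ⟨_, rfl⟩
  rw [← hC] at h0
  rw [← hC, ← hS] at h
  rw [← hC, ← hS] at e1
  -- C s = k c and -S s + k C c + k² s = 0
  have e2 : s * (1 + k ^ 2) = 0 := by
    have e3 : k * c = C * s := by linarith
    have e4 : -S * s + C * (k * c) + k ^ 2 * s = 0 := by linarith
    rw [e3] at e4
    have e5 : s * (C ^ 2 - S + k ^ 2) = 0 := by linarith
    rw [e1] at e5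
    have e6 : (1 + S - S + k ^ 2) = 1 + k ^ 2 := by ring
    rw [e6] at e5
    exact e5
  have e3 : s = 0 := by
    rcases mul_eq_zero.1 e2 with h3 | h3
    · exact h3
    · have : 0 < 1 + k ^ 2 := by positivity
      exact absurd h3 this.ne'
  rw [e3] at h0 h1
  have e4 : c = 0 := by
    have : k * c = 0 := by linarith
    rcases mul_eq_zero.1 this with h3 | h3
    · exact absurd h3 hk.ne'
    · exact h3
  rw [e4] at h1
  norm_num at h1

/-- the eigenvalues -/
theorem eigen_iff {a b k : ℝ} (ha : 0 < a) (hab : a < b) (hk : 0 < k) :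
    IsEigenvalue a b V (k ^ 2) ↔ ∃ n : ℤ, (n : ℝ) * π = Phi a b k := by
  have hb : 0 < b := ha.trans hab
  rw [← w_b_iff k a b hb]
  constructor
  · rintro ⟨u, u', h1, h2, hua, hub, x0, hx0, hne⟩
    by_contra hwb
    have h3 := wr_const (c := ph a k) ha hab h1 h2 b (right_mem_Icc.2 hab.le)
    rw [hua, hub, w_a k a ha, zero_mul, zero_mul, mul_zero] at h3
    have h4 : u' b = 0 := by
      have : u' b * w k (ph a k) b = 0 := by linarith
      rcases mul_eq_zero.1 this with h | h
      · exact h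
      · exact absurd h hwb
    have h5 : ∀ c, ∀ x ∈ Icc a b, u x * w' k c x - u' x * w k c x = 0 := by
      intro c x hx
      have e1 := wr_const (c := c) ha hab h1 h2 x hx
      have e2 := wr_const (c := c) ha hab h1 h2 b (right_mem_Icc.2 hab.le)
      rw [e1, ← e2, hub, h4]
      ring
    have e1 := h5 0 x0 hx0
    have e2 := h5 (π / 2) x0 hx0
    have e3 := wronskian_w k x0 (ha.trans_le hx0.1)
    have e4 : u x0 * (-k * (1 + k ^ 2)) = 0 := by
      rw [← e3]
      linear_combination w k 0 x0 * e2 - w k (π / 2) x0 * e1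
    rcases mul_eq_zero.1 e4 with h | h
    · exact hne h
    · have : 0 < k * (1 + k ^ 2) := by positivity
      linarith
  · intro hwb
    refine ⟨w k (ph a k), w' k (ph a k), fun x hx => (hasDerivAt_w (ha.trans_le hx.1)).hasDerivWithinAt,
      fun x hx => (hasDerivAt_w' (ha.trans_le hx.1)).hasDerivWithinAt, w_a k a ha, hwb, ?_⟩
    by_contra hcon
    push Not at hcon
    have h1 : HasDerivWithinAt (w k (ph a k)) (w' k (ph a k) a) (Icc a b) a :=
      (hasDerivAt_w ha).hasDerivWithinAt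
    have h2 : HasDerivWithinAt (w k (ph a k)) 0 (Icc a b) a := by
      refine (hasDerivWithinAt_const a (Icc a b) (0 : ℝ)).congr hcon (hcon a (left_mem_Icc.2 hab.le))
    have h3 := h1.derivWithin (uniqueDiffOn_Icc hab a (left_mem_Icc.2 hab.le))
    have h4 := h2.derivWithin (uniqueDiffOn_Icc hab a (left_mem_Icc.2 hab.le))
    exact w'_a_ne k a hk ha (h3.symm.trans h4)

end Pool.Agent.Q204.FT
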